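import Pool.Agent.H90.HW.Stmts2

/-!
Closure properties of the class of counts which belong to a given class after the removal of
finitely many primes.
-/

namespace Pool.Agent.H90.HW

open Pool.Agent.H73.Zeta

theorem evClosed : SEvClosed := by
  intro C hC
  refine ⟨?_, ?_, ?_, ?_, ?_, ?_⟩
  · rintro N M h ⟨M₀, h0, hM⟩
    refine ⟨M₀, h0, fun L hL hd => hC.congr ?_ (hM L hL hd)⟩
    intro p k hk
    simp only [restr]
    split_ifs
    · rfl
    · exact h p k hk
  · rintro N M ⟨M₀, h0, hM⟩ ⟨M₁, h1, hM'⟩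
    refine ⟨M₀ * M₁, Nat.mul_pos h0 h1, fun L hL hd => ?_⟩
    refine hC.congr ?_ (hC.add (hM L hL (dvd_trans (dvd_mul_right _ _) hd))
      (hM' L hL (dvd_trans (dvd_mul_left _ _) hd)))
    intro p k hk
    simp only [restr]
    split_ifs
    · simp
    · rfl
  · rintro N ⟨M₀, h0, hM⟩
    refine ⟨M₀, h0, fun L hL hd => hC.congr ?_ (hC.neg (hM L hL hd))⟩
    intro p k hk
    simp only [restr]
    split_ifs
    · simp
    · rfl
  · rintro N ⟨M₀, h0, hM⟩
    refine ⟨M₀, h0, fun L hL hd => hC.congr ?_ (hC.shift (hM L hL hd))⟩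
    intro p k hk
    simp only [restr]
    split_ifs
    · simp
    · rfl
  · rintro N ⟨M₀, h0, hM⟩
    refine ⟨M₀, h0, fun L hL hd => hC.unshift (hC.congr ?_ (hM L hL hd))⟩
    intro p k hk
    simp only [restr]
    split_ifs
    · simp
    · rfl
  · rintro N ⟨M₀, h0, hM⟩
    refine ⟨M₀, h0, fun L hL hd => hC.div (hC.congr ?_ (hM L hL hd))⟩
    intro p k hk
    simp only [restr]
    split_ifs
    · simp
    · rfl

end Pool.Agent.H90.HW
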